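import Pool.Agent.R745.CDN.All
import Pool.Agent.R745.CDX.All
import Pool.Agent.Results.MP_990a44_co.ExactValue

/-! The largest product of an `(n, δ)` constant distance code pair equals Ahlswede's function for
every alphabet of at least six letters. -/

namespace Pool.Agent.Results.MP_990a44_co.AlphabetsAtLeastSix

open Pool.Agent.Results.MP_990a44_co.SqrtFactor

/-- Every `(n, δ)` constant distance code pair over an alphabet of `q ≥ 6` letters has product of
cardinalities at most `F_q(n, δ)`. -/
theorem upper_bound (q n δ : ℕ) (hq : 6 ≤ q) (A B : Finset (Fin n → Fin q))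
    (h : ConstDist δ A B) : A.card * B.card ≤ F q n δ := by
  rcases Nat.lt_or_ge q 12 with h12 | h12
  · obtain ⟨Q, rfl⟩ : ∃ Q, q = Q + 1 := ⟨q - 1, by omega⟩
    have h2 : F (Q + 1) n δ = H825CD.FF Q n δ := by
      unfold F H825CD.FF
      rw [if_neg (by omega), if_neg (by omega)]
      rfl
    rw [h2]
    rcases Nat.lt_or_ge Q 7 with h7 | h7
    · exact R745CDX.allX_main (Fin n) Q (by omega) n Finset.univ (by simp) δ A B
        (fun a _ i hi => absurd (Finset.mem_univ i) hi)
        (fun a _ i hi => absurd (Finset.mem_univ i) hi) h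
    · exact R745CD.allN_main (Fin n) Q (by omega) (by omega) n Finset.univ (by simp) δ A B
        (fun a _ i hi => absurd (Finset.mem_univ i) hi)
        (fun a _ i hi => absurd (Finset.mem_univ i) hi) h
  · exact ExactValue.upper_bound q n δ h12 A B h

/-- `M_q(n, δ) = F_q(n, δ)` for all `q ≥ 6`, `n` and `0 ≤ δ ≤ n`. -/
theorem result (q n δ : ℕ) (hq : 6 ≤ q) (hδ : δ ≤ n) : M q n δ = F q n δ := by
  refine le_antisymm ?_ (lower (by omega) n δ hδ)
  obtain ⟨A, B, hc, hk⟩ := M_ach q n δ
  rw [hk]
  exact upper_bound q n δ hq A B hc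

end Pool.Agent.Results.MP_990a44_co.AlphabetsAtLeastSix
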